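import Pool.Agent.helper95.FI.SpecT
import Pool.Agent.helper94.FIP.Spec

/-!
# Project fi, Spec V: the model, Siegel-Walfisz for `lam`, Vaughan, type I, the reduction, the mean value

`L = log x`.  Rules as in SpecA (import Pool.Agent.helper95.FI.SpecV).
-/

set_option autoImplicit false

open Finset

noncomputable section

namespace Pool.Agent.FI

/-- `2^(2^r)` -/
def Zr (r : ℕ) : ℕ := 2 ^ 2 ^ r

/-- `l` has no prime factor `≤ Zr r` -/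
def RghI (r : ℕ) (l : ℤ) : Prop := ∀ p : ℕ, p.Prime → p ≤ Zr r → ¬ (p : ℤ) ∣ l

/-- `∏_{p ≤ Zr r} (1 - 1/p)⁻¹` -/
def kap (r : ℕ) : ℝ := ∏ p ∈ (Icc 1 (Zr r)).filter Nat.Prime, (1 - 1 / (p : ℝ))⁻¹

open scoped Classical in
/-- the model of the primes -/
def nu (r : ℕ) (l : ℤ) : ℝ := if RghI r l then kap r else 0

/-- the weighted indicator of the primes -/
def th (l : ℤ) : ℝ := if l.toNat.Prime then Real.log l else 0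

/-- the difference, on `(x, 2x]` -/
def lam (x r : ℕ) (l : ℤ) : ℝ := if (x : ℤ) < l ∧ l ≤ 2 * x then th l - nu r l else 0

/-- the pairs of the problem, coprime -/
def PZ (x A : ℕ) : Finset (ℤ × ℤ) := {ζ ∈ Icc (1 : ℤ) A ×ˢ Ioc (x : ℤ) (2 * x) | ζ.1 % 2 = 1 ∧ IsCoprime ζ.1 ζ.2}

/-- the coefficient of Vaughan's identity -/
def al (V k : ℕ) : ℝ := ∑ d ∈ k.divisors with V < d, (ArithmeticFunction.moebius d : ℝ)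

/-- the short coefficient of Vaughan's identity -/
def cc (U V q : ℕ) : ℝ :=
  ∑ m ∈ q.divisors with m ≤ U ∧ q / m ≤ V, ArithmeticFunction.vonMangoldt m * (ArithmeticFunction.moebius (q / m) : ℝ)

/-- **KAP** (short).  Mertens: `∏_{p ≤ z} (1-1/p)⁻¹ ≤ C log z` (look in Pool/Agent/*/: Mertens product upper bound, `prod_one_sub_inv`, or `exp` of `∑ 1/p ≤ log log z + C`). -/
def KAP_stmt : Prop := ∃ C : ℝ, 0 < C ∧ ∀ r : ℕ, 1 ≤ kap r ∧ kap r ≤ C * Real.log (Zr r)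

/-- **NUS** (medium; rough numbers in arithmetic progressions).  `fund_abstract` (Pool/Agent/helper23/Slope/FL.lean; its `Z r` is `Zr r`) with the finite set `{n ∈ (0, u] : n ≡ c mod q}`, `a = 1`, `h p n = [p ∣ n]`, `ω p = [p ∤ q]`, `X = u/q`, and
`b = ⌈(A + 5) log L⌉`: for `D ⊆` primes: if a `p ∈ D` divides `q` both sides are `0` (`gcd(c,q) = 1`), otherwise the count is `u/(q ∏ p) + O(1)`.  Error term `Zr r ^ (42 (b+1)) ≤ exp(C (log L)²) ≤ x^(1/2)`; `kap ∏_{p ≤ Z, p ∤ q} (1-1/p) = ∏_{p ∣ q} (1-1/p)⁻¹ = q/φ(q)` since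
all prime factors of `q ≤ Zr r` are `≤ Zr r`.  `gcd(c,q) > 1`: no rough `l` (a prime `≤ q ≤ Zr r` divides `l`). `kap ≤ L` by KAP. -/
def NUS_stmt : Prop := ∀ A C₅ : ℕ, ∃ x₀ : ℕ, ∀ x : ℕ, x₀ ≤ x → ∀ r : ℕ, (Zr r : ℝ) ≤ Real.log x ^ (2 * C₅) → ∀ q : ℕ, 1 ≤ q → q ≤ Zr r → ∀ (c : ℤ) (u : ℕ), u ≤ 2 * x →
  (IsCoprime c (q : ℤ) → |∑ l ∈ Ioc (0 : ℤ) u with (q : ℤ) ∣ l - c, nu r l - u / (Nat.totient q : ℝ)| ≤ x / Real.log x ^ A) ∧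
  (¬ IsCoprime c (q : ℤ) → ∑ l ∈ Ioc (0 : ℤ) u with (q : ℤ) ∣ l - c, nu r l = 0)

/-- **THS** (short, medium).  From `siegel_walfisz` (Pool/Agent/helper74/TG/SW.lean); prime powers contribute `≤ √(2x) (2L)²`. -/
def THS_stmt : Prop := ∀ A B : ℕ, ∃ x₀ : ℕ, ∀ x : ℕ, x₀ ≤ x → ∀ q : ℕ, 1 ≤ q → (q : ℝ) ≤ Real.log x ^ B → ∀ (c : ℤ) (u : ℕ), IsCoprime c (q : ℤ) → u ≤ 2 * x →
  |∑ l ∈ Ioc (0 : ℤ) u with (q : ℤ) ∣ l - c, th l - u / (Nat.totient q : ℝ)| ≤ x / Real.log x ^ A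

/-- the Siegel-Walfisz property in residue classes -/
def SAh (x : ℕ) (Q S : ℝ) (lm : ℤ → ℝ) : Prop := ∀ q : ℕ, 1 ≤ q → (q : ℝ) ≤ Q → ∀ (c : ℤ) (u : ℕ), x ≤ u → u ≤ 2 * x →
  |∑ l ∈ Ioc (x : ℤ) u with (q : ℤ) ∣ l - c, lm l| ≤ S

/-- **LMA** (short, medium).  From NUS, THS, KAP (with `A + 1`, differences of two sums).  `gcd(c, q) > 1`: a prime `l ≡ c` would divide... `gcd(l,q) > 1` for a prime `l > x > q` is impossible.  `|lam| ≤ 2L`: `th ≤ log 2x ≤ 1.5 L`, `kap ≤ C log Zr ≤ C 2C₅ log L ≤ L/2`. A prime `l > x` is rough since `x > Zr r`. -/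
def LMA_stmt : Prop := ∀ E C₅ : ℕ, E ≤ C₅ → ∃ x₀ : ℕ, ∀ x : ℕ, x₀ ≤ x → ∀ r : ℕ, Real.log x ^ C₅ ≤ Zr r → (Zr r : ℝ) ≤ Real.log x ^ (2 * C₅) →
  LamOK x (Zr r) (2 * Real.log x) (lam x r) ∧ SAh x (Real.log x ^ E) (x / Real.log x ^ E) (lam x r)

/-- **LMS** (medium).  `ψ` is periodic modulo `q`: `∑ lm(l) ψ(l) = ∑_c ψ(c) ∑_{l ≡ c} lm(l)`, at most `q · 2 x/L^(2E+1)`; the condition `gcd(l,k) = 1` removes at most `∑_{g ∣ k, g > Z prime} (x/g + 1) ≤ (3L)(x/Z + 1) ≤ x/L^(E+2)·…` integers `l` with `lm(l) ≠ 0` (`k ≤ x³`, so at most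
`log k/log 2 ≤ 5L` primes `g > Z`; `Z ≥ L^(E+5)`), each with weight `≤ 2L`. -/
def LMS_stmt : Prop := ∀ E : ℕ, ∃ x₀ : ℕ, ∀ x : ℕ, x₀ ≤ x → ∀ (Z : ℕ) (lm : ℤ → ℝ), Real.log x ^ (E + 5) ≤ Z → LamOK x Z (2 * Real.log x) lm →
  SAh x (Real.log x ^ (2 * E + 2)) (x / Real.log x ^ (2 * E + 2)) lm → SWh x (Real.log x ^ E) (x / Real.log x ^ E) lm

/-- **NPR** (short).  Non-primitive pairs with rough `l`: a prime `g > Z` divides `a` and `l`; at most `(A/g)(x/g + 1) ≤ 2 x²/g²` pairs for each `g ≤ A ≤ x`; `∑_{g > Z} 1/g² ≤ 1/Z`. -/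
def NPR_stmt : Prop := ∀ x A Z : ℕ, 1 ≤ x → A ≤ x → 1 ≤ Z →
  (#{ζ ∈ Icc (1 : ℤ) A ×ˢ Ioc (x : ℤ) (2 * x) | ¬ IsCoprime ζ.1 ζ.2 ∧ ∀ g ∈ Icc 1 Z, g.Prime → ¬ (g : ℤ) ∣ ζ.2} : ℝ) ≤ 2 * x ^ 2 / Z

/-- **VGI** (short, medium; Vaughan).  `vaughan` of Pool/Agent/helper85/BVP/Vaughan.lean evaluated at `n > U` (or from `Λ * 1 = log`, `μ * 1 = δ`). The other two claims: `al V 1 = 0`, for `k > 1` the full sum of `μ` vanishes. `|cc| ≤ ∑_{m ∣ q} Λ(m) = log q`. -/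
def VGI_stmt : Prop := ∀ U V n : ℕ, 1 ≤ U → 1 ≤ V → U < n →
  (ArithmeticFunction.vonMangoldt n = ∑ d ∈ n.divisors with d ≤ V, (ArithmeticFunction.moebius d : ℝ) * Real.log (n / d : ℝ)
    - ∑ q ∈ n.divisors, cc U V q + ∑ m ∈ n.divisors with U < m, ArithmeticFunction.vonMangoldt m * al V (n / m)) ∧
  |al V n| ≤ V ∧ |al V n| ≤ #n.divisors ∧ (n ≤ V → al V n = 0) ∧ |cc U V n| ≤ Real.log n ∧ (U * V < n → cc U V n = 0)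

/-- **TI1** (medium; type I).  From NPR.  First drop the condition `IsCoprime` (NPR, weight `≤ 2L · (2L+4)`).  For each odd `a` and each residue `c` modulo `q` with `q ∣ 8c² - a²`: `∑_{l ≡ c} lm(l) (log (8l² - a²))^h` by Abel summation (the logarithm is increasing in `l`, at most
`2L + 4`): at most `(2L+4) · 2 · x/L^E`.  Sum over `c < q ≤ L^D` and `a ≤ x`. -/
def TI1_stmt : Prop := ∀ B D : ℕ, ∃ E : ℕ, ∃ x₀ : ℕ, ∀ x : ℕ, x₀ ≤ x → ∀ (Z : ℕ) (lm : ℤ → ℝ), Real.log x ^ E ≤ Z → LamOK x Z (2 * Real.log x) lm →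
  SAh x (Real.log x ^ E) (x / Real.log x ^ E) lm → ∀ A : ℕ, A ≤ x → ∀ q : ℕ, 1 ≤ q → (q : ℝ) ≤ Real.log x ^ D → ∀ h : ℕ, h ≤ 1 →
  |∑ ζ ∈ PZ x A with q ∣ nn ζ, lm ζ.2 * Real.log (nn ζ) ^ h| ≤ x ^ 2 / Real.log x ^ B

/-- **TY2** (medium, long; type II).  From DVE, DVU, SIZ, FFC, CN1, NPR, T2M, VGI.  For `ζ ∈ PZ` (primitive, odd, `7x² ≤ nn ζ ≤ 8(2x)²`) every divisor `m` of `nn ζ` is `nn z` for exactly one `z ∈ Fd` with `z w = ζ`, `nn w = nn ζ/m`; `z` is primitive and `w` odd.  Terms with `m > 32x²/V` vanish (`al V (nn ζ/m) = 0`).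
`N = U 2^j`, `j ≤ 4L`: the sum is `∑_N S_N - (pairs (z,w) with z w not primitive)`, `S_N = ∑_{z ∈ ZD N} ∑_{w ∈ Bx R odd} Λ(nn z) al V (nn w) lm(lc z w) ga A (ac z w)`, `R = Nat.sqrt (2000 x²/N)` (`w = mul8 ζ (cj z)/N8 z` lies in `Bx R`: see WPR; `1156 x² ≤ R² N` since `x²/N` is large), T2M with `B + 2`
(the blocks with `N > 32x²/V` vanish, so `N L^E ≤ x²` if `V ≥ L^(E+1)`).  Non-primitive: for given `ζ = zw` with `lm ζ.2 ≠ 0` the `z` are primitive with `nn z = m ∣ nn ζ`, at most `τ(m)` of them (CN1), `∑_{m ∣ n} Λ(m) τ(m) ≤ (4L)²` (prime powers `m`), `|al| ≤ V`: total `≤ (2x²/Z) · 2L · (4L)² V` (NPR). -/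
def TY2_stmt : Prop := ∀ B : ℕ, ∃ E : ℕ, ∃ x₀ : ℕ, ∀ x : ℕ, x₀ ≤ x → ∀ (Z : ℕ) (lm : ℤ → ℝ), Real.log x ^ E ≤ Z → LamOK x Z (2 * Real.log x) lm →
  SWh x (Real.log x ^ E) (x / Real.log x ^ E) lm → ∀ A U V : ℕ, A ≤ x → Real.log x ^ E ≤ U → Real.log x ^ E ≤ V → (V : ℝ) * Real.log x ^ E ≤ Z → (U : ℝ) * Real.log x ^ E ≤ x →
  |∑ ζ ∈ PZ x A, lm ζ.2 * ∑ m ∈ (nn ζ).divisors with U < m, ArithmeticFunction.vonMangoldt m * al V (nn ζ / m)| ≤ x ^ 2 / Real.log x ^ B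

/-- **RED** (medium; the reduction).  From LMA, LMS, VGI, TI1, TY2.  `U = V = ⌈L^(E₁)⌉`, `E₁` = the exponent of TY2 for `B + 1`; `D = 2E₁ + 2`, TI1 with `B + 2E₁ + 6` and `D`; `C₅` larger than all exponents plus `2E₁ + 10`.  Type I part of Vaughan: `∑_{d ≤ V} |∑ lam (log n - log d)|` and `∑_{q ≤ UV} |cc q| |∑ lam|`. -/
def RED_stmt : Prop := ∀ B : ℕ, ∃ C₅ x₀ : ℕ, 1 ≤ C₅ ∧ ∀ x : ℕ, x₀ ≤ x → ∀ r : ℕ, Real.log x ^ C₅ ≤ Zr r → (Zr r : ℝ) ≤ Real.log x ^ (2 * C₅) → ∀ A : ℕ, A ≤ x →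
  |∑ ζ ∈ PZ x A, lam x r ζ.2 * ArithmeticFunction.vonMangoldt (nn ζ)| ≤ x ^ 2 / Real.log x ^ B

/-- **PPW** (short, medium).  From SIZ, CN1.  `nn ζ = 8l² - a² ≡ 7 mod 8` is a prime power `q^j` which is not a prime, so `j ≥ 3` (odd); `ζ ∈ Fd` is primitive, so for each value at most `τ(q^j) ≤ 4L` pairs; at most `(32x²)^(1/3) · 4L` values; each term `≤ (2L)(3L)`. -/
def PPW_stmt : Prop := ∃ x₀ : ℕ, ∀ x : ℕ, x₀ ≤ x → ∀ A : ℕ, A ≤ x →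
  ∑ ζ ∈ PZ x A with ¬ (nn ζ).Prime, th ζ.2 * ArithmeticFunction.vonMangoldt (nn ζ) ≤ x ^ (3 / 2 : ℝ)

/-- **MTM** (main term, block M).  Lower bound for the model. -/
def MTM_stmt : Prop := ∃ c : ℝ, 0 < c ∧ ∀ C₅ K : ℕ, ∃ x₀ : ℕ, ∀ x : ℕ, x₀ ≤ x → ∀ r : ℕ, Real.log x ^ C₅ ≤ Zr r → (Zr r : ℝ) ≤ Real.log x ^ (2 * C₅) → ∀ A : ℕ,
  (x : ℝ) / Real.log x ^ K ≤ A → A ≤ x →
  c * (A * x) ≤ ∑ ζ ∈ PZ x A, nu r ζ.2 * (if (nn ζ).Prime then Real.log (nn ζ) else 0)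

/-- **PMVx** (medium).  From RED, PPW, MTM.  Given `K` take RED with `B = K + 1`; for large `x` there is `r` with `L^C₅ ≤ Zr r ≤ L^(2C₅)` (the least `r` with `L^C₅ ≤ Zr r`, `Zr (r+1) = (Zr r)²`).  `∑_{PZ} th Λ = ∑ lam Λ + ∑ nu Λ ≥ c A x - x²/L^(K+1) ≥ (c/2) A x`; subtract PPW; the remaining terms are pairs
`l = p` prime, `nn ζ = 8p² - a²` prime, weight `log p log(8p² - a²) ≤ (2L)(3L)`; for `ζ = (a, p)`, `a ≤ x < p` coprimality is automatic. -/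
def PMVx_stmt : Prop := Pool.Agent.FIP.PMV_stmt

end Pool.Agent.FI
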