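import Pool.Agent.helper95.FI.SpecV

/-!
# Project fi, Spec M: the main term (prime elements of `ℤ[√8]` in sectors, with `d ∣ l`; the sieve over `l`)

`L = log x`, `lep = log (3 + √8)`.  Rules as in SpecA (import Pool.Agent.helper95.FI.SpecM).  `HKP`, `HKT` (statements in
Pool/Agent/helper95/FI/Defs.lean) are the prime number theorems for the Hecke characters (block HK of helper36).
-/

set_option autoImplicit false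

open Finset

noncomputable section

namespace Pool.Agent.FI

/-- the regulator -/
def lep : ℝ := Real.log (3 + √8)

/-- the tent of half width `h` with centre `c` -/
def tn (h c y : ℝ) : ℝ := max 0 (1 - |y - c| / h)

/-- its Fourier coefficient (period `2 lep`) -/
def ck (h c κ : ℝ) : ℂ := 1 / (2 * lep : ℂ) * ∫ t in (c - h)..(c + h), (tn h c t : ℂ) * Complex.exp (-(κ * t) * Complex.I)

/-- the angle `α ∈ [0, 2π)` with `w e^{iα} = 1` -/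
def ang (w : ℂ) : ℝ := if 0 < w.arg then 2 * Real.pi - w.arg else - w.arg

/-- the frequencies -/
def fr (α : ℝ) (m : ℤ) : ℝ := (α + 2 * Real.pi * m) / (2 * lep)

/-- the character of `ℚ(√2)` -/
def ch8 (p : ℕ) : ℝ := if p % 8 = 1 ∨ p % 8 = 7 then 1 else if p % 8 = 3 ∨ p % 8 = 5 then -1 else 0

/-- the density of `p ∣ l` -/
def gg (p : ℕ) : ℝ := 1 / (p - ch8 p)

/-- the weighted number of the prime elements with negative norm, `u₁ < nn ≤ u₂`, angle weight `tn h c`, `d ∣ l` -/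
def Gd (u₁ u₂ : ℕ) (h c : ℝ) (d : ℕ) : ℝ :=
  ∑ z ∈ FF u₂ with u₁ < nn z ∧ (nn z).Prime ∧ N8 z < 0 ∧ (d : ℤ) ∣ z.2, Real.log (nn z) * tn h c (yy z)

/-- **YYB** (short, medium).  `z ∈ Fd`.  `(a + lθ)/|a - lθ|`: for `4|l| < a`: `(a + lθ)/(a - lθ) < 3 + θ` iff `l (8 + 4θ) < a (2 + θ)` iff `4 l < a` (`θ² = 8`, `8 + 4θ = 4(2+θ)`), similarly `> 3 - θ = 1/(3+θ)`; for `|a| < 2l`: `(lθ + a)/(lθ - a) < 3 + θ` iff
`a (4 + θ) < l (8 + 2θ)` iff `a < 2 l`. -/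
def YYB_stmt : Prop := ∀ z : ℤ × ℤ, Fd z → |yy z| ≤ lep

/-- **MIN** (short, medium).  `z = (a,l)`, `N8 z < 0`: `|a| < 2l`, `n = nn z = 8l² - a²`, `y = yy z`, `lθ + a = √n e^{y/2}`, `lθ - a = √n e^{-y/2}`, so `a = √n sinh(y/2)`, `lθ = √n cosh(y/2)`.  `tn ≠ 0` gives `0 < y < 2h`, `h = A/(8x) ≤ 1/8`.  `√n > 3x`, `√8 < 2.83`, so `l > x`; `√n ≤ 5x`,
`sinh t ≤ 1.01 t`, `cosh t ≤ 1.01` for `0 ≤ t ≤ 1/8`: `a ≤ 5.05 x h ≤ A`, `l ≤ 5.05 x/2.82 ≤ 2x`. -/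
def MIN_stmt : Prop := ∀ x A : ℕ, 1 ≤ A → A ≤ x → ∀ z ∈ FF (25 * x ^ 2), N8 z < 0 → 9 * x ^ 2 < nn z →
  tn (A / (8 * x)) (A / (8 * x)) (yy z) ≠ 0 → 0 < z.1 ∧ z.1 ≤ A ∧ (x : ℤ) < z.2 ∧ z.2 ≤ 2 * x

/-- **FOU** (medium; Fourier series of the tent).  `f(y) = tn h c y · exp(-iαy/(2 lep))` on `[-lep, lep)` extended periodically (`AddCircle (2 lep)`) is continuous (`tn = 0` near the end points: `c + h ≤ 1 < lep`).  Its `m`-th Fourier coefficient is `ck h c (fr α m)`; `∫ tn e^{-iκt} = e^{-iκc} · 4 sin²(κh/2)/(h κ²)`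
for `κ ≠ 0` (and `= h` for `κ = 0`), so `‖ck‖ ≤ 2/(lep h κ²)` is summable and `has_pointwise_sum_fourier_series_of_summable` applies; `|fr α m| ≥ π(|m| - 1)/lep`, tail `∑_{|m| > K} ≤ C/(h K)`. -/
def FOU_stmt : Prop := ∃ C : ℝ, 0 < C ∧ ∀ h c : ℝ, 0 < h → h ≤ c → c + h ≤ 1 →
  (∀ κ : ℝ, ‖ck h c κ‖ ≤ h) ∧ ck h c 0 = (h / (2 * lep) : ℂ) ∧
  ∀ α : ℝ, 0 ≤ α → α < 2 * Real.pi → ∀ K : ℕ, 1 ≤ K → ∀ y : ℝ, |y| ≤ lep →
    ‖(tn h c y : ℂ) - ∑ m ∈ Icc (-(K : ℤ)) K, ck h c (fr α m) * Complex.exp (fr α m * y * Complex.I)‖ ≤ C / (h * K)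

/-- a complete family of ring class characters -/
def Fam (d k : ℕ) (ψ : Fin k → ℤ × ℤ → ℂ) : Prop := 0 < k ∧ (∀ i, IsRC d (ψ i)) ∧
  (∀ z : ℤ × ℤ, Nat.Coprime (nn z) d → ∑ i, ψ i z = if (d : ℤ) ∣ z.2 then (k : ℂ) else 0) ∧
  ∃! i, ∀ z : ℤ × ℤ, Nat.Coprime (nn z) d → ψ i z = 1

open scoped Classical in
/-- **GRP** (medium).  `R = ℤ√8 ⧸ (d)` (Mathlib `Zsqrtd 8`; or `ZMod d × ZMod d` with the multiplication of `mul8`), a finite commutative ring; `z` is a unit of `R` iff `gcd(nn z, d) = 1` (`z z' = N8 z`; and the norm of an inverse).  `G` = units of `R` modulo the units which are rational integers, `k = |G|`.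
The characters of the finite abelian group `G` (`AddChar (Additive G) ℂ`, `AddChar.sum_apply_eq_ite`, `AddChar.card_eq`) give the `ψ i`, extended by `0`.  `z` has trivial class iff `z ≡ (t, 0)`, iff `d ∣ z.2`.  `k · φ(d)` = number of units of `R` (the integer units `(t,0)` form a subgroup isomorphic to `(ZMod d)ˣ`). -/
def GRP_stmt : Prop := ∀ d : ℕ, Odd d → ∃ (k : ℕ) (ψ : Fin k → ℤ × ℤ → ℂ), Fam d k ψ ∧
  k * Nat.totient d = #{z ∈ (range d) ×ˢ (range d) | Nat.Coprime (nn ((z.1 : ℤ), (z.2 : ℤ))) d}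

open scoped Classical in
/-- **CNU** (short, medium).  Chinese remainder theorem (induction over the primes dividing `d`), and for a prime `p`, odd: `#{(a,l) mod p : p ∣ a² - 8l²} = 1 + (p-1)(1 + ch8 p)` (`2` is a square modulo `p` iff `p ≡ ±1 mod 8`: `ZMod.exists_sq_eq_two_iff`), so the complement has `(p-1)(p - ch8 p)` elements. -/
def CNU_stmt : Prop := ∀ d : ℕ, Odd d → Squarefree d →
  (#{z ∈ (range d) ×ˢ (range d) | Nat.Coprime (nn ((z.1 : ℤ), (z.2 : ℤ))) d} : ℝ) = ∏ p ∈ d.primeFactors, ((p : ℝ) - 1) * (p - ch8 p)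

/-- **ORT** (short).  From GRP, CNU. -/
def ORT_stmt : Prop := ∀ d : ℕ, Odd d → Squarefree d → ∃ (k : ℕ) (ψ : Fin k → ℤ × ℤ → ℂ), Fam d k ψ ∧ 1 / (k : ℝ) = ∏ p ∈ d.primeFactors, gg p

/-- **GD1** (medium; the expansion).  From FOU, YYB.  For `z ∈ FF u₂` with `nn z > u₁ ≥ d` prime (so coprime to `d`): `[2^e d ∣ l] = 2^{-e} ∑_{j ≤ e} (-1)^{jl} · k⁻¹ ∑_i ψ_i(z)` (`e ≤ 1`, `d` odd), `[N8 z < 0] = ½ ∑_{i ≤ 1} (-1)^i sgn(N8 z)^i`, and `tn h c (yy z)` by FOU with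
`α = ang (ψ_t(3,1) (-1)^j)` (`‖ψ_t(3,1)‖ = 1` as `nn (3,1) = 1`), error `C/(hK)` for each `z`.  The absolute values of the characters are `≤ 1`, the number of `(j, t, i)` is `(e+1) k 2`, so the total error is at most `2 C/(hK) ∑ log`. -/
def GD1_stmt : Prop := ∃ C : ℝ, 0 < C ∧ ∀ (d k e : ℕ) (ψ : Fin k → ℤ × ℤ → ℂ), Odd d → e ≤ 1 → Fam d k ψ → ∀ u₁ u₂ : ℕ, d ≤ u₁ → u₁ ≤ u₂ →
  ∀ h c : ℝ, 0 < h → h ≤ c → c + h ≤ 1 → ∀ K : ℕ, 1 ≤ K →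
  ‖(Gd u₁ u₂ h c (2 ^ e * d) : ℂ) - 1 / (2 ^ e * k * 2 : ℂ) * ∑ j ∈ range (e + 1), ∑ t : Fin k, ∑ i ∈ range 2, (-1) ^ i *
      ∑ m ∈ Icc (-(K : ℤ)) K, ck h c (fr (ang (ψ t (3, 1) * (-1) ^ j)) m) *
        (PS u₂ (HC (ψ t) j i (fr (ang (ψ t (3, 1) * (-1) ^ j)) m)) - PS u₁ (HC (ψ t) j i (fr (ang (ψ t (3, 1) * (-1) ^ j)) m)))‖
    ≤ C / (h * K) * ‖PS u₂ (fun _ => 1)‖

/-- **GDA** (medium).  From ORT, GD1, HKP, HKT, FOU.  `d = 2^e d'`, `K = ⌈L^(B+K'+3)⌉`, HKP with `X = 64x²` (`log X ≤ 3L`), exponents `A' = 2B + 2K' + 10`, `B' = B + K' + 5`.  `UInv` holds for `κ = fr (ang w) m` (`w e^{i ang w} = 1`, `|w| = 1`).  Exactly one term is trivial (`t` = principal, `j = i = 0`, `m = 0`; then `ang 1 = 0`, `κ = 0`; `κ ≠ 0` for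
`m ≠ 0`): it gives `2^{-e} k⁻¹ ½ (h/(2 lep)) (u₂ - u₁)` by HKT.  The other `(e+1) · k · 2 · (2K+1)` terms are at most `h · 2C · 64 x²/(3L)^…` each, divided by `2^e k 2`. -/
def GDA_stmt : Prop := ∀ B K : ℕ, ∃ x₀ : ℕ, ∀ x : ℕ, x₀ ≤ x → ∀ d : ℕ, Squarefree d → (d : ℝ) ≤ Real.log x ^ B → ∀ u₁ u₂ : ℕ, x ≤ u₁ → u₁ ≤ u₂ → u₂ ≤ 64 * x ^ 2 →
  ∀ h c : ℝ, 1 / Real.log x ^ K ≤ h → h ≤ c → c + h ≤ 1 →
  |Gd u₁ u₂ h c d - (∏ p ∈ d.primeFactors, gg p) * (h * (u₂ - u₁) / (4 * lep))| ≤ x ^ 2 / Real.log x ^ B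

/-- **TRB** (short).  From MIN.  The `z` that count have `0 < a ≤ A ≤ x`, `x < l ≤ 2x`, `d ∣ l`: at most `x (x/d + 1)` of them and none if `d > 2x`; weights `≤ log (25x²)`. -/
def TRB_stmt : Prop := ∃ C : ℝ, 0 < C ∧ ∀ x A d : ℕ, 2 ≤ x → 1 ≤ A → A ≤ x → 1 ≤ d →
  Gd (9 * x ^ 2) (25 * x ^ 2) (A / (8 * x)) (A / (8 * x)) d ≤ C * x ^ 2 * Real.log x / d

/-- **KPR** (short, medium).  `(1 - gg p)/(1 - 1/p)` is `1` for `p = 2`, `p²/(p²-1) ≥ 1` for `ch8 p = -1`, `1 - 1/(p-1)²` for `ch8 p = 1` (`p ≥ 7`); `∏_{n ≥ 6} (1 - 1/n²) = 5/6` (telescoping).  Second claim: `gg p ≤ 1/(p-1)` for odd `p`, `gg 2 = 1/2`: `∏ gg ≤ kap/d`.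
Third: `p gg p ≥ p/(p+1) ≥ 1 - 1/p`, so the product over any set of primes `≤ Zr r` is at least `1/kap r`. -/
def KPR_stmt : Prop := ∀ r : ℕ, 1 / 2 ≤ kap r * ∏ p ∈ Nat.primesLE (Zr r), (1 - gg p) ∧ ∀ D ⊆ Nat.primesLE (Zr r),
  ∏ p ∈ D, gg p ≤ kap r / ∏ p ∈ D, (p : ℝ) ∧ 1 / kap r ≤ ∏ p ∈ D, (p * gg p)

/-- **MTMx** (medium).  From MIN, GDA, TRB, KPR, KAP.  `brun_hooley 2` (Pool/Agent/Lib/SievePrimes.lean; its `Z r` is `Zr r`) with the constant `C` there; the finite set of the `z ∈ FF (25x²)` with `9x² < nn z` prime, `N8 z < 0`; weights `a(z) = log (nn z) tn h h (yy z)/E₁`, `h = A/(8x)`, `E₁ = x²/L^{B₁}`, `h_p(z) = [p ∣ z.2]`,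
`ω p = p gg p` (`≤ 2`, `< p`), `X = (h · 16x²/(4 lep))/E₁`.  For `D` with `d = ∏ D ≤ L^B`: GDA (`u₁ = 9x²`, `u₂ = 25x²`): error `≤ x²/L^B ≤ E₁ ∏ ω`; for `d > L^B`: both terms are small: TRB (`≤ C x² L/L^B`) and `X E₁ ∏ gg ≤ x² kap/L^B`.  `B = B₁ + 5`, `B₁ = 2C₅ C + K + 5` (the sieve error `E₁ (Zr r)^C ≤ x²/L^{K+4}`).
Result: `∑_{l rough} log (nn z) tn ≥ ½ (A x/(2 lep)) ∏ (1 - gg p) - x²/L^{K+4}`; `A x ≥ x²/L^K`, `kap ∏ (1 - gg) ≥ 1/2`, `∏ (1-gg) ≥ 1/(2 kap) ≥ 1/L`.  By MIN every such `z` is in `PZ x A` (`nn z` prime implies coprime coordinates), `tn ≤ 1`, and `[l rough] = ∏ (1 - h_p)` = `nu r l/kap r`. -/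
def MTMx_stmt : Prop := MTM_stmt

end Pool.Agent.FI
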