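import Pool.Agent.helper95.FI.Defs

/-!
# Project fi (MP_ad8ced_nt), Spec A: the ring `ℤ[√8]`

RULES.  File `Pool/Agent/<seat>/FI/XX.lean`, `import Pool.Agent.helper95.FI.SpecA` (or the Spec file which contains the row),
`namespace Pool.Agent.FI`, `theorem XX (h1 : YY_stmt) ... : XX_stmt`, auxiliary lemmas prefixed `XX_` (private where possible).
Never change this file.  If a statement is wrong tell helper95 at once.  No `convert` / `congr!`, no `native_decide`, no straight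
double quotes.  Other statements may be used as hypotheses only.

Elements of `ℤ[θ]`, `θ² = 8`, are pairs `z = (a, l) ↔ a + l θ`.  `mul8`, `cj`, `N8` (norm `a² - 8 l²`), `nn = |N8|`.  All identities
(`N8 (mul8 z w) = N8 z * N8 w`, associativity, commutativity, `mul8 z (cj z) = (N8 z, 0)`) are `ring` after unfolding and `Prod.ext`.
`N8 z = 0` only for `z = 0` (`8` is not a square).  An odd `z` (first coordinate odd) has `N8 z ≡ 1 mod 8`.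
-/

set_option autoImplicit false

open Finset

noncomputable section

namespace Pool.Agent.FI

/-- the square of side `2R+1` -/
def Bx (R : ℕ) : Finset (ℤ × ℤ) := Icc (-(R : ℤ)) R ×ˢ Icc (-(R : ℤ)) R

/-- **THU** (short, medium; Thue).  Pigeonhole: `R = ⌊√(m √8)⌋`, `S = ⌊√(m/√8)⌋`, `(R+1)(S+1) > m`, so two of the values `r - ν s`,
`0 ≤ r ≤ R`, `0 ≤ s ≤ S`, agree modulo `m`; the difference `(r,s) ≠ 0` has `|r| ≤ R`, `|s| ≤ S`, `m ∣ r - ν s`, hence `m ∣ r² - 8 s²`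
and `|r² - 8s²| ≤ max (R², 8 S²) ≤ √8 m < 3 m`, so `r² - 8s² = j m`, `|j| ≤ 2`.  `j ≠ 0` (8 is no square).  `j = ±2`: `r` even, so `4 ∣ 2m`,
impossible.  (Mathlib has the pigeonhole principle; without real numbers: `R = √(3m)`, i.e. `Nat.sqrt (3*m)` and `S = Nat.sqrt (m/3)` give
`|r²-8s²| ≤ 3m`; `j = ±3` can be excluded only with care, so `√8` is better: e.g. `R = Nat.sqrt (Nat.sqrt (8*m^2))`,
`S = Nat.sqrt (Nat.sqrt (m^2/8))`, `(R+1)^4 > 8 m^2`, `(S+1)^4 > m^2/8`, so `((R+1)(S+1))^4 > m^4`.) -/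
def THU_stmt : Prop := ∀ (m : ℕ) (ν : ℤ), Odd m → (m : ℤ) ∣ ν ^ 2 - 8 →
  ∃ z : ℤ × ℤ, nn z = m ∧ (m : ℤ) ∣ z.1 - ν * z.2

/-- **PRI** (short).  Such a `z` is primitive.  If a prime `q` divides `r, s`, then `q² ∣ m`, `m/q ∣ r/q - ν (s/q)`, so
`m/q ∣ (r/q)² - 8 (s/q)² = ± m/q²`, impossible. -/
def PRI_stmt : Prop := ∀ (m : ℕ) (ν : ℤ) (z : ℤ × ℤ), Odd m → (m : ℤ) ∣ ν ^ 2 - 8 → nn z = m →
  (m : ℤ) ∣ z.1 - ν * z.2 → IsCoprime z.1 z.2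

/-- **FDE** (short, medium).  Existence of an associate in the fundamental domain.  Multiply by `-1` so that `a > 0` if `N8 ζ > 0` and `l > 0` if
`N8 ζ < 0`.  `N8 ζ > 0`: if `4 l > a` multiply by `(3,-1)`: `(a,l) ↦ (3a - 8l, 3l - a)`, `|3l - a| < |l|` (`a < 4l`, `a > 2l` from `a² > 8l²`); similarly
`(3,1)` if `4 l < -a`; `4|l| = a` is impossible (`a` odd).  `N8 ζ < 0`: if `a > 2 l` multiply by `(3,-1)`: `|3a - 8l| < a`; similarly for `a < -2l`.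
Induction on `|l|`, resp. `|a|` (the sign conditions `a > 0`, `l > 0` are preserved). -/
def FDE_stmt : Prop := ∀ ζ : ℤ × ℤ, ζ.1 % 2 = 1 → ∃ u : ℤ × ℤ, N8 u = 1 ∧ Fd (mul8 u ζ)

/-- **FDU** (short, medium).  Uniqueness.  `u = (p, q)` with `p² - 8q² = ±1`: modulo `8`, `p² - 8 q² = 1`.  If `q ≠ 0` then `|p| ≥ 3`, `2.8 |q| ≤ |p| ≤ 3 |q|`.
With `ζ = (a,l)`, `u ζ = (pa + 8ql, pl + qa)`.  Case `N8 ζ > 0` (`4|l| < a`): the norm of `uζ` is positive, so `4|pl + qa| < pa + 8ql`; from `pa + 8ql > 0`,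
`|8 q l| < 2 |q| a ≤ |p| a`: `p > 0`; `q > 0`: `4(pl + qa) < pa + 8ql` gives `a (4q - p) < l (8q - 4p) `, `8q - 4p < 0`, `l > -a/4`: `a(4q - p) < a (4p - 8q)/4 =
a (p - 2q)`, so `6q < 2p`, contradiction to `p ≤ 3q`; `q < 0` symmetric.  Case `N8 ζ < 0` (`|a| < 2l`): `|pa + 8ql| < 2(pl + qa)`, similar.  So `q = 0`, `p = ±1`, and the sign is `+`. -/
def FDU_stmt : Prop := ∀ ζ u : ℤ × ℤ, Fd ζ → nn u = 1 → Fd (mul8 u ζ) → u = (1, 0)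

/-- **DVE** (medium).  From THU, PRI, FDE: existence of the divisor of norm `m`.  `gcd(l, m) = 1` (a common prime divides `a`).  `ν l ≡ a mod m`, so
`ν² ≡ 8`.  `z` from THU: `z.1 ≡ ν z.2`.  Then `m ∣ ` both coordinates of `mul8 ζ (cj z)`: `a r - 8 l s ≡ ν l ν s - 8 l s ≡ 0`, `l r - a s ≡ l ν s - ν l s = 0`;
`w = mul8 ζ (cj z) / N8 z`.  `z` is odd since `m` is odd.  Replace `z` by the associate in `Fd` (FDE) and `w` by the inverse unit times `w`. -/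
def DVE_stmt : Prop := ∀ (ζ : ℤ × ℤ) (m k : ℕ), ζ.1 % 2 = 1 → IsCoprime ζ.1 ζ.2 → nn ζ = m * k →
  ∃ z w : ℤ × ℤ, Fd z ∧ nn z = m ∧ mul8 z w = ζ

/-- **DVU** (short, medium).  From FDU: uniqueness.  `gcd(l, m) = 1`.  From `mul8 z w = ζ`: `mul8 ζ (cj z) = N8 z * w`, so `m ∣ l r - a s`, `r ≡ ν s mod m`
(`ν l ≡ a`).  For two such `z, z'` both coordinates of `mul8 z' (cj z)` are divisible by `m`: `r'r - 8 s's ≡ ν² s s' - 8 s s'`, `s' r - r' s ≡ 0`.  So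
`mul8 z' (cj z) = m u₀`, `N8`: `m² = m² |N8 u₀|`, `z' = u z` with `u = ± u₀` a unit; FDU. -/
def DVU_stmt : Prop := ∀ (ζ : ℤ × ℤ) (m : ℕ) (z w z' w' : ℤ × ℤ), ζ.1 % 2 = 1 → IsCoprime ζ.1 ζ.2 →
  Fd z → Fd z' → nn z = m → nn z' = m → mul8 z w = ζ → mul8 z' w' = ζ → z = z' ∧ w = w'

/-- **SIZ** (short).  Sizes in the fundamental domain. (`4|l| < a`: `a² - 8l² ≥ a²/2`, `8 l² ≤ a²/2`; `|a| < 2l`: `8l² - a² ≥ 4l² ≥ a²`.) -/
def SIZ_stmt : Prop := ∀ z : ℤ × ℤ, Fd z → z.1 ^ 2 ≤ 2 * (nn z : ℤ) ∧ z.2 ^ 2 ≤ (nn z : ℤ) ∧ 0 < nn z ∧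
  z ∈ FF (nn z) ∧ (N8 z = nn z ∧ nn z % 8 = 1 ∨ N8 z = -(nn z : ℤ) ∧ nn z % 8 = 7)

/-- **FFC** (short).  From SIZ. -/
def FFC_stmt : Prop := ∀ u : ℕ, ((FF u).card : ℝ) ≤ 25 * u ∧ ∀ z ∈ FF u, z.1 ^ 2 ≤ 2 * (u : ℤ) ∧ z.2 ^ 2 ≤ (u : ℤ)

/-- **CN1** (medium).  From DVU or directly.  Fix a primitive `z₀ ∈ Fd` with `nn z₀ = k` (if there is none the count is `0`).  For a primitive `z ∈ Fd` with norm `k`
let `ν_z` be the residue with `z.1 ≡ ν_z z.2 mod k` (`gcd(z.2, k) = 1`), `ν_z² ≡ 8`; the map `z ↦ ν_z mod k` is injective (as in DVU).  The map `ν ↦ gcd(k, ν - ν₀)` is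
injective on the roots: `k ∣ (ν - ν₀)(ν + ν₀)`, and `gcd(k, ν - ν₀)`, `gcd(k, ν + ν₀)` are coprime (`k` odd, `gcd(ν₀, k) = 1`), so `k = k₁ k₂` with
`k₁ ∣ ν - ν₀`, `k₂ ∣ ν + ν₀` and `ν` is determined by `k₁` modulo `k₁` and modulo `k₂`. -/
def CN1_stmt : Prop := ∀ k : ℕ, Odd k →
  #{z ∈ FF k | nn z = k ∧ IsCoprime z.1 z.2} ≤ #k.divisors

/-- **CN2** (short, medium).  From CN1.  `z = e z₁`, `e = gcd`, `z₁ ∈ Fd` primitive, `nn z₁ = k/e²`; `τ(k/e²) ≤ τ(k)`, at most `τ(k)` values of `e`. -/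
def CN2_stmt : Prop := ∀ k : ℕ, Odd k → #{z ∈ FF k | nn z = k} ≤ #k.divisors ^ 2

/-- **UCT** (short, medium).  The units in a box.  If `u = (p,q)`, `p² - 8q² = 1`, `p, q ≥ 1`, then `mul8 u (3,-1) = (3p - 8q, 3q - p)` has `0 < 3p - 8q ≤ p/2`, `3q - p ≥ 0`
(`2.8 q ≤ p ≤ 3 q`).  So the number with `1 ≤ p ≤ Y`, `q ≥ 0` is at most `2 + log Y/log 2`; four signs. -/
def UCT_stmt : Prop := ∃ C : ℝ, 0 < C ∧ ∀ Y : ℕ, 1 ≤ Y → (#{u ∈ Bx Y | N8 u = 1} : ℝ) ≤ C * (1 + Real.log Y)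

/-- **CN3** (medium).  From FDE, CN2, UCT.  Every such `w` is `u⁻¹ z` with `z ∈ Fd`, `nn z = k`, `u` a unit.  For fixed `z` fix one `w₀` in the box; the others are
`w = u w₀` with `N8 u = 1`, `u = ± mul8 w (cj w₀)/k`, so `|u.1|, |u.2| ≤ 9 R²`. -/
def CN3_stmt : Prop := ∃ C : ℝ, 0 < C ∧ ∀ R k : ℕ, 1 ≤ R → 1 ≤ k →
  (#{w ∈ Bx R | w.1 % 2 = 1 ∧ nn w = k} : ℝ) ≤ C * (1 + Real.log R) * (#k.divisors : ℝ) ^ 2

/-- **TDW** (medium).  From CN3 and the divisor moments (`∑_{k ≤ y} τ(k)^4 ≤ C y (1 + log y)^15`; look in Pool/Agent/*/DM/, Pool/Agent/helper85/BVP/Tau.lean or prove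
`∑_{k≤y} τ^j` by induction, `τ(ab) ≤ τ(a) τ(b)`; any exponent is fine as long as it is at most `40`). `nn w ≤ 9 R²`. -/
def TDW_stmt : Prop := ∃ C : ℝ, 0 < C ∧ ∀ R : ℕ, 1 ≤ R →
  ∑ w ∈ Bx R with w.1 % 2 = 1, ((nn w).divisors.card : ℝ) ^ 2 ≤ C * R ^ 2 * (1 + Real.log R) ^ 40

end Pool.Agent.FI
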