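import Mathlib

/-!
# Project fi (MP_ad8ced_nt): primes `8 p² - a²`, `p` prime.  Definitions.

The ring `ℤ[θ]`, `θ² = 8`, is `ℤ × ℤ` with `(a, l) ↔ a + l θ`; the norm is `a² - 8 l²`.  `z = (a, l)` is odd if
`a` is odd.  The unit is `ε = (3, 1)` (norm `1`); all units are `± ε^k`.  Every odd `z` has exactly one
associate in `Fd`.  For `x < l`, `|a| ≤ x` (the pairs of the problem) `(a, l) ∈ Fd` and the norm is negative.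
-/

set_option autoImplicit false

open Finset

noncomputable section

namespace Pool.Agent.FI

/-- the norm `a² - 8 l²` -/
def N8 (z : ℤ × ℤ) : ℤ := z.1 ^ 2 - 8 * z.2 ^ 2

/-- the absolute norm -/
def nn (z : ℤ × ℤ) : ℕ := (N8 z).natAbs

/-- multiplication of `ℤ[√8]` -/
def mul8 (z w : ℤ × ℤ) : ℤ × ℤ := (z.1 * w.1 + 8 * z.2 * w.2, z.1 * w.2 + z.2 * w.1)

/-- conjugation -/
def cj (z : ℤ × ℤ) : ℤ × ℤ := (z.1, -z.2)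

/-- the fundamental domain of the odd elements modulo units -/
def Fd (z : ℤ × ℤ) : Prop := z.1 % 2 = 1 ∧ (4 * |z.2| < z.1 ∨ |z.1| < 2 * z.2)

open scoped Classical in
/-- the elements of the fundamental domain with norm at most `u` -/
def FF (u : ℕ) : Finset (ℤ × ℤ) :=
  {z ∈ Icc (-(2 * u : ℤ)) (2 * u) ×ˢ Icc (-(2 * u : ℤ)) (2 * u) | Fd z ∧ nn z ≤ u}

/-- `log |z / z'|` -/
def yy (z : ℤ × ℤ) : ℝ := Real.log (|(z.1 : ℝ) + z.2 * √8| / |(z.1 : ℝ) - z.2 * √8|)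

/-- a character of `(ℤ[θ]/d)ˣ` trivial on the rational integers, as a function on `ℤ[θ]`, zero outside -/
def IsRC (d : ℕ) (ψ : ℤ × ℤ → ℂ) : Prop :=
  (∀ z w, ψ (mul8 z w) = ψ z * ψ w) ∧
  (∀ z w : ℤ × ℤ, (d : ℤ) ∣ z.1 - w.1 → (d : ℤ) ∣ z.2 - w.2 → ψ z = ψ w) ∧
  (∀ z, ¬ Nat.Coprime (nn z) d → ψ z = 0) ∧
  (∀ z, Nat.Coprime (nn z) d → ‖ψ z‖ = 1) ∧
  (∀ t : ℤ, IsCoprime t (d : ℤ) → ψ (t, 0) = 1)

/-- the Hecke character `ψ(z) (-1)^(j l) sgn(N z)^i |z/z'|^(i κ)` -/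
def HC (ψ : ℤ × ℤ → ℂ) (j i : ℕ) (κ : ℝ) (z : ℤ × ℤ) : ℂ :=
  ψ z * (-1) ^ (j * z.2.natAbs) * ((N8 z).sign : ℂ) ^ i * Complex.exp (κ * yy z * Complex.I)

/-- invariance under the unit `3 + √8` -/
def UInv (ψ : ℤ × ℤ → ℂ) (j : ℕ) (κ : ℝ) : Prop :=
  ψ (3, 1) * (-1) ^ j * Complex.exp (κ * (2 * Real.log (3 + √8)) * Complex.I) = 1

/-- the trivial character -/
def HTriv (d : ℕ) (ψ : ℤ × ℤ → ℂ) (j i : ℕ) (κ : ℝ) : Prop :=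
  (∀ z, Nat.Coprime (nn z) d → ψ z = 1) ∧ j = 0 ∧ i = 0 ∧ κ = 0

/-- the sum over the prime elements -/
def PS (u : ℕ) (F : ℤ × ℤ → ℂ) : ℂ :=
  ∑ z ∈ FF u with (nn z).Prime, (Real.log (nn z) : ℂ) * F z

/-- **HKP** (block HK): the prime number theorem for the Hecke characters of `ℚ(√2)`, with Siegel. -/
def HKP_stmt : Prop := ∀ A B : ℕ, ∃ C x₀ : ℝ, 0 < C ∧ ∀ x : ℝ, x₀ ≤ x → ∀ d : ℕ, Odd d → Squarefree d →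
  (d : ℝ) ≤ Real.log x ^ B → ∀ ψ : ℤ × ℤ → ℂ, IsRC d ψ → ∀ j i : ℕ, j ≤ 1 → i ≤ 1 → ∀ κ : ℝ,
  |κ| ≤ Real.log x ^ B → UInv ψ j κ → ¬ HTriv d ψ j i κ → ∀ u : ℕ, (u : ℝ) ≤ x →
  ‖PS u (HC ψ j i κ)‖ ≤ C * x / Real.log x ^ A

/-- **HKT** (block HK): the trivial character. -/
def HKT_stmt : Prop := ∀ A : ℕ, ∃ C x₀ : ℝ, 0 < C ∧ ∀ x : ℝ, x₀ ≤ x → ∀ u : ℕ, (u : ℝ) ≤ x →
  ‖PS u (fun _ => 1) - u‖ ≤ C * x / Real.log x ^ A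

end Pool.Agent.FI
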