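import Pool.Agent.helper95.FI.SpecA

/-!
# Project fi, Spec T: the bilinear form (type II), by Cauchy-Schwarz over `w` and the large sieve

`ζ = z w`, `z = (r, s)`, `w = (u, v)`: `a(zw) = ac z w = r u + 8 s v`, `l(zw) = lc z w = r v + s u`.  `dl z z' = s r' - s' r` is the determinant of the map
`w ↦ (lc z w, lc z' w)`.  `ZD N` = primitive `z ∈ Fd` with norm in `(N, 2N]`; there `|r| ≤ 2 √N`, `|s| ≤ √(2N)` (FFC), and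
`max (|r|, |s|) ≥ √N / 3` since `r² + 8 s² ≥ nn z > N`.  `lam` is a weight on `(x, 2x]` supported on integers without prime factors `≤ Z`.
Rules as in SpecA (import Pool.Agent.helper95.FI.SpecT).
-/

set_option autoImplicit false

open Finset

noncomputable section

namespace Pool.Agent.FI

/-- the coordinate `l` of `z w` -/
def lc (z w : ℤ × ℤ) : ℤ := z.1 * w.2 + z.2 * w.1

/-- the coordinate `a` of `z w` -/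
def ac (z w : ℤ × ℤ) : ℤ := z.1 * w.1 + 8 * z.2 * w.2

/-- the determinant -/
def dl (z z' : ℤ × ℤ) : ℤ := z.2 * z'.1 - z'.2 * z.1

open scoped Classical in
/-- the primitive elements of the fundamental domain with norm in `(N, 2N]` -/
def ZD (N : ℕ) : Finset (ℤ × ℤ) := {z ∈ FF (2 * N) | N < nn z ∧ IsCoprime z.1 z.2}

/-- the indicator of `0 < a ≤ A` -/
def ga (A : ℕ) (a : ℤ) : ℝ := if 0 < a ∧ a ≤ A then 1 else 0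

/-- `lam` lives on `(x, 2x]`, is bounded by `M` and vanishes at integers with a prime factor `≤ Z` -/
def LamOK (x Z : ℕ) (M : ℝ) (lam : ℤ → ℝ) : Prop :=
  (∀ l, |lam l| ≤ M) ∧ ∀ l, lam l ≠ 0 → (x : ℤ) < l ∧ l ≤ 2 * x ∧ ∀ g : ℕ, g.Prime → g ≤ Z → ¬ (g : ℤ) ∣ l

/-- the sum over `w` of the squares -/
def WW (N R A : ℕ) (β : ℤ × ℤ → ℝ) (lam : ℤ → ℝ) : ℝ :=
  ∑ w ∈ Bx R with w.1 % 2 = 1, (∑ z ∈ ZD N, β z * lam (lc z w) * ga A (ac z w)) ^ 2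

/-- the end points of the partition of `(x, 2x]` into `K` intervals -/
def pt (x K i : ℕ) : ℕ := x + i * x / K

open scoped Classical in
/-- the sum over a box and a residue class -/
def Ef (x K : ℕ) (lam : ℤ → ℝ) (i j D : ℕ) (ω : ℤ) : ℝ :=
  ∑ l₁ ∈ Ioc (pt x K i : ℤ) (pt x K (i + 1)), ∑ l₂ ∈ Ioc (pt x K j : ℤ) (pt x K (j + 1)),
    if IsCoprime l₁ (D : ℤ) ∧ (D : ℤ) ∣ l₂ - ω * l₁ then lam l₁ * lam l₂ else 0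

/-- `om e z z'` is the slope of the lattice `{(r v + e s u, r' v + e s' u)}` -/
def OmOK (om : ℕ → ℤ × ℤ → ℤ × ℤ → ℤ) : Prop := ∀ e : ℕ, e = 1 ∨ e = 2 → ∀ z z' : ℤ × ℤ,
  z.1 % 2 = 1 → z'.1 % 2 = 1 → IsCoprime z.1 z.2 → IsCoprime z'.1 z'.2 → dl z z' ≠ 0 →
  IsCoprime (om e z z') (e * dl z z') ∧ ∀ l₁ l₂ : ℤ,
    (∃ u v : ℤ, l₁ = z.1 * v + e * z.2 * u ∧ l₂ = z'.1 * v + e * z'.2 * u) ↔ e * dl z z' ∣ l₂ - om e z z' * l₁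

/-- **LAT** (short, medium).  Bezout for `(e s, r)` (`r` odd, `gcd(r, s) = 1`): `p e s + q r = 1`, `ω = p e s' + q r'`.  `e s' - ω e s = -q D`, `r' - ω r = p D` with
`D = e dl z z' = e (s r' - s' r)`, so every lattice vector satisfies `D ∣ l₂ - ω l₁`.  Conversely `l₂ - ω l₁ = k D`: `u = p l₁ - r k`, `v = q l₁ + e s k`.
A prime `g ∣ D`, `g ∣ ω` would divide `e s'` and `r'`, impossible. -/
def LAT_stmt : Prop := ∃ om, OmOK om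

open scoped Classical in
/-- **PAI** (short, medium).  From FFC.  For fixed `z` and fixed value `t` of `dl z z'` two solutions `z'` differ by `k z` (`gcd(r,s) = 1`), `|k| ≤ 6` since
`max (|r|,|s|) ≥ √N/3` and the coordinates of `z'` are at most `2√N`; so at most `13 (2D+1)` elements `z'` for each of the at most `50 N` elements `z`. -/
def PAI_stmt : Prop := ∃ C : ℝ, 0 < C ∧ ∀ N D : ℕ, 1 ≤ N →
  (#{p ∈ ZD N ×ˢ ZD N | |dl p.1 p.2| ≤ D} : ℝ) ≤ C * N * (D + 1)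

open scoped Classical in
/-- **COP** (medium).  From FFC.  Let `g > Z` be a prime dividing `l = lc z w`, `0 < l ≤ 2x`; there are at most `log (2x)/log 2` such primes for given `(z, w)`.
(i) `g` does not divide both coordinates of `w = (u,v)`: the `z' = (r',s') ∈ ZD N` with `g ∣ r' v + s' u`: one coordinate is free (`≤ 4√N + 1` values), the other is
determined modulo `g` (`≤ 4√N/g + 1` values): at most `25 (N/g + √N)`.  Total over `z`, `w`, `g`: `≤ C (1 + log x) N R² (N/Z + √N)`.  (ii) `g` divides both coordinates: such `w ∈ Bx R`,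
`w ≠ 0` (`w` is odd): at most `(2R/g+1)² - 1 ≤ 9R²/g²` (none if `g > R`), `∑_{g > Z} 1/g² ≤ 1/Z`, times `(50 N)²` pairs. -/
def COP_stmt : Prop := ∃ C : ℝ, 0 < C ∧ ∀ N R Z x : ℕ, 1 ≤ N → 1 ≤ R → 1 ≤ Z → 1 ≤ x →
  (#{t ∈ (ZD N ×ˢ ZD N) ×ˢ Bx R | t.2.1 % 2 = 1 ∧ 0 < lc t.1.1 t.2 ∧ lc t.1.1 t.2 ≤ 2 * x ∧
      ∃ g : ℕ, g.Prime ∧ Z < g ∧ (g : ℤ) ∣ lc t.1.1 t.2 ∧ (g : ℤ) ∣ lc t.1.2 t.2} : ℝ)
    ≤ C * (1 + Real.log x) * (R ^ 2 * N) * (N / Z + √N)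

open scoped Classical in
/-- **BDY** (short, medium).  From FFC.  For fixed `z`: `|r| ≥ √N/3` or `8|s| ≥ √N/3`; fix the other coordinate of `w` (`2R+1` values); the remaining one lies in an interval of
length `2Y/(√N/3)`, so `≤ 6Y/√N + 1` values. -/
def BDY_stmt : Prop := ∃ C : ℝ, 0 < C ∧ ∀ N R : ℕ, 1 ≤ N → 1 ≤ R → ∀ (T : ℤ) (Y : ℝ), 0 ≤ Y →
  (#{t ∈ ZD N ×ˢ Bx R | |(ac t.1 t.2 : ℝ) - T| ≤ Y} : ℝ) ≤ C * N * (R * (Y / √N + 1))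

open scoped Classical in
/-- the sum over the `w` for one pair `(z, z')`, with coprimality -/
def Tc (R A : ℕ) (lam : ℤ → ℝ) (z z' : ℤ × ℤ) : ℝ :=
  ∑ w ∈ Bx R with w.1 % 2 = 1 ∧ IsCoprime (lc z w) (dl z z'), lam (lc z w) * lam (lc z' w) * ga A (ac z w) * ga A (ac z' w)

open scoped Classical in
/-- **WPR** (medium, long; the boxes for one pair).  From FFC.  `l₁ = lc z w`, `l₂ = lc z' w`, `a₁ = ac z w`, `a₂ = ac z' w`.  Sort the `w` by the boxes `I_i × I_j ∋ (l₁, l₂)`, `I_i = (pt i, pt (i+1)]`, `i, j < K₂`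
(`lam l ≠ 0` implies `x < l ≤ 2x`; `pt 0 = x`, `pt K₂ = 2x`).  `dl z z' * a₁ = (r r' - 8 s s') l₁ - N8 z * l₂` (`ring`; check the sign) and `dl z z' * a₂ = N8 z' * l₁ - (r r' - 8 s s') l₂` up to sign, so for two `w` in the same box `a₁`, `a₂` change by at most
`(20 N + 2 N)(2x/K₂)/|dl| ≤ 44 x K₁/K₂ =: Y` (`pt (i+1) - pt i ≤ x/K₂ + 1 ≤ 2x/K₂`, `|r|,|r'| ≤ 2√N`, `|s|,|s'| ≤ √(2N)`, `|N8| ≤ 2N`).  A box is mixed if the product `ga(a₁) ga(a₂)` takes both values `0` and `1` on the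
`w ∈ ℤ²` (all parities) of the box; then for one `i ∈ {1,2}` and one `T ∈ {0, A}` all `w` of the box satisfy `|a_i - T| ≤ Y`; so the mixed boxes contribute at most the first sum (each term is at most `M²`).
On a box where the product is always `1` (good box) all `w` of the box lie in `Bx R`: `w = mul8 ζ (cj z)/N8 z` with `ζ = (a₁, l₁)`, `0 < a₁ ≤ A ≤ x`, `x < l₁ ≤ 2x`: `|u| ≤ (x · 2√N + 16 x √(2N))/N ≤ 34 x/√N`,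
`|v| ≤ 6x/√N`, and `34² x² ≤ R² N`.  So the good box contributes `∑_{w ∈ ℤ², u odd, (l₁,l₂) ∈ I_i × I_j, gcd(l₁, dl) = 1} lam lam`; `u` odd = all minus `u = 2u'`; by `OmOK` the map `w ↦ (l₁,l₂)`
is a bijection onto `{dl ∣ l₂ - ω l₁}`, resp. (`e = 2`, `(u',v) ↦ (l₁,l₂)`) `{2 dl ∣ l₂ - ω l₁}` (injective since the determinant is `≠ 0`), and `gcd(l₁, 2 dl) = gcd(l₁, dl)` for odd `l₁` (`lam l₁ ≠ 0`, `Z ≥ 2`).  So it is `Ef(e=1) - Ef(e=2)`.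
Boxes where the product is always `0` (or without `w`) contribute `0`. -/
def WPR_stmt : Prop := ∀ om, OmOK om → ∀ x Z N R A K₁ K₂ : ℕ, 1 ≤ x → 2 ≤ Z → 1 ≤ N → 1 ≤ R → A ≤ x → 1 ≤ K₁ → 1 ≤ K₂ → K₂ ≤ x →
  1156 * x ^ 2 ≤ R ^ 2 * N → ∀ (M : ℝ) (lam : ℤ → ℝ), LamOK x Z M lam → ∀ z ∈ ZD N, ∀ z' ∈ ZD N, N < K₁ * (dl z z').natAbs →
  |Tc R A lam z z'| ≤ M ^ 2 * (#{w ∈ Bx R | |(ac z w : ℝ)| ≤ 44 * x * K₁ / K₂} + #{w ∈ Bx R | |(ac z w : ℝ) - A| ≤ 44 * x * K₁ / K₂}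
      + #{w ∈ Bx R | |(ac z' w : ℝ)| ≤ 44 * x * K₁ / K₂} + #{w ∈ Bx R | |(ac z' w : ℝ) - A| ≤ 44 * x * K₁ / K₂})
    + ∑ i ∈ range K₂, ∑ j ∈ range K₂, ∑ e ∈ ({1, 2} : Finset ℕ), |Ef x K₂ lam i j (e * (dl z z').natAbs) (om e z z')|

open scoped Classical in
/-- **WBD** (medium; the decomposition).  From PAI, COP, BDY, WPR, FFC.  Expand the square and interchange: `WW ≤ Mβ² ∑_{z,z'} |T(z,z')|`,
`T = ∑_{w ∈ Bx R, odd} lam(l₁) lam(l₂) ga(a₁) ga(a₂)`, `l₁ = lc z w`, `l₂ = lc z' w`, `a₁ = ac z w`, `a₂ = ac z' w`.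
(1) pairs with `K₁ |dl z z'| ≤ N`: trivially `M² (2R+1)²` each, PAI with `D = N/K₁` (rounded).
(2) the other pairs, the `w` for which `gcd(l₁, dl z z') > 1`: a prime `g` divides both, `g > Z` (`lam(l₁) ≠ 0`), and `g ∣ l₂` (`r l₂ - r' l₁` and `s l₂ - s' l₁` are multiples of `dl z z'`, `gcd(r,s) = 1`): COP.
(3) the rest is `Tc`: WPR; the cardinalities are summed by BDY with `T = 0, A` and `Y = 44 x K₁/K₂` (times `#ZD N` for the other variable). -/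
def WBD_stmt : Prop := ∃ C : ℝ, 0 < C ∧ ∀ om, OmOK om → ∀ x Z N R A K₁ K₂ : ℕ, 1 ≤ x → 2 ≤ Z → 1 ≤ N → 1 ≤ R → A ≤ x → 1 ≤ K₁ → 1 ≤ K₂ → K₂ ≤ x →
  1156 * x ^ 2 ≤ R ^ 2 * N → ∀ (M Mβ : ℝ) (lam : ℤ → ℝ) (β : ℤ × ℤ → ℝ), LamOK x Z M lam → (∀ z, |β z| ≤ Mβ) →
  WW N R A β lam ≤ C * Mβ ^ 2 * (M ^ 2 * ((R : ℝ) ^ 2 * N * (N / K₁ + 1) + (1 + Real.log x) * (R ^ 2 * N) * (N / Z + √N)
      + (N : ℝ) ^ 2 * (R * (x * K₁ / (K₂ * √N) + 1)))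
    + ∑ i ∈ range K₂, ∑ j ∈ range K₂, ∑ e ∈ ({1, 2} : Finset ℕ), ∑ p ∈ ZD N ×ˢ ZD N with N < K₁ * (dl p.1 p.2).natAbs,
        |Ef x K₂ lam i j (e * (dl p.1 p.2).natAbs) (om e p.1 p.2)|)

open scoped Classical in
/-- **SEC** (medium; the second moment).  `c(D, ω)` = number of pairs `(y, y') ∈ Y²` with `|det| = D` and slope `ω` modulo `D`.  `∑ F ≤ (∑ c²)^(1/2) (∑ F²)^(1/2)`.  `∑_{D ≥ D₀} ∑_ω c²` counts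
`(y₁, y₂, y₁', y₂')` with `|det(y₁,y₂)| = |det(y₁',y₂')| = D ≥ D₀` and the same slope modulo `D`; `y₂ ≡ ω y₁`, `y₂' ≡ ω y₁'` modulo `D`, so the four numbers `(y₂)_i (y₁')_j - (y₁)_i (y₂')_j` are `k_ij D`, `|k_ij| ≤ 2P²/D₀`.
Given `y₁, y₂` and the `k_ij` the vectors `y₁', y₂'` are determined: for each `j` a linear system for `((y₁')_j, (y₂')_j)` with determinant `± det(y₁,y₂) ≠ 0`.  So `∑ c² ≤ #Y² (4P²/D₀ + 1)^4`, `#Y ≤ (2P+1)² ≤ 9P²`.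
Here `y = (y.1, y.2)`, `det = y.1 y'.2 - y'.1 y.2`. -/
def SEC_stmt : Prop := ∃ C : ℝ, 0 < C ∧ ∀ P D₀ : ℕ, 1 ≤ P → 1 ≤ D₀ → ∀ Y : Finset (ℤ × ℤ), Y ⊆ Bx P →
  ∀ (sl : ℤ × ℤ → ℤ × ℤ → ℤ) (F : ℕ → ℤ → ℝ), (∀ D ω, 0 ≤ F D ω) →
  (∀ (D : ℕ) (ω ω' : ℤ), (D : ℤ) ∣ ω - ω' → F D ω = F D ω') →
  (∀ y ∈ Y, ∀ y' ∈ Y, y.1 * y'.2 - y'.1 * y.2 ≠ 0 → IsCoprime (sl y y') (y.1 * y'.2 - y'.1 * y.2) ∧
    y.1 * y'.2 - y'.1 * y.2 ∣ y'.1 - sl y y' * y.1 ∧ y.1 * y'.2 - y'.1 * y.2 ∣ y'.2 - sl y y' * y.2) →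
  ∑ p ∈ Y ×ˢ Y with D₀ ≤ (p.1.1 * p.2.2 - p.2.1 * p.1.2).natAbs, F (p.1.1 * p.2.2 - p.2.1 * p.1.2).natAbs (sl p.1 p.2)
    ≤ C * P ^ 2 * ((P : ℝ) ^ 2 / D₀ + 1) ^ 2 * √(∑ D ∈ Icc D₀ (2 * P ^ 2), ∑ ω ∈ range D with Nat.Coprime ω D, F D (ω : ℤ) ^ 2)

open scoped Classical in
/-- **PLN** (short, medium; Plancherel on `(ZMod D)ˣ`).  With `a = lam` on `I`, `b = lam` on `J`: `E(ω) = ∑_{l₁, l₂ coprime to D, l₂ = ω l₁} lam lam` (`l₂` is automatically coprime to `D`), `∑_ω E(ω) χ(ω) = conj(A(χ)) B(χ)`, and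
`∑_ω |E|² = φ(D)⁻¹ ∑_χ |·|²` (Mathlib: `DirichletCharacter.sum_char_inv_mul_char_eq`, or the orthogonality used in Pool/Agent/helper85/MT). -/
def PLN_stmt : Prop := ∀ (x K : ℕ) (lam : ℤ → ℝ) (i j D : ℕ), 1 ≤ D →
  ∑ ω ∈ range D with Nat.Coprime ω D, Ef x K lam i j D (ω : ℤ) ^ 2 =
    1 / (Nat.totient D : ℝ) * ∑ χ : DirichletCharacter ℂ D,
      ‖∑ l ∈ Ioc (pt x K i : ℤ) (pt x K (i + 1)), (lam l : ℂ) * χ (l : ZMod D)‖ ^ 2 *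
      ‖∑ l ∈ Ioc (pt x K j : ℤ) (pt x K (j + 1)), (lam l : ℂ) * χ (l : ZMod D)‖ ^ 2

open scoped Classical in
/-- Siegel-Walfisz hypothesis: primitive characters of conductor `≤ Q`, coprimality to `k ≤ x³` -/
def SWh (x : ℕ) (Q S : ℝ) (lam : ℤ → ℝ) : Prop := ∀ q k : ℕ, 1 ≤ q → (q : ℝ) ≤ Q → 1 ≤ k → k ≤ x ^ 3 →
  ∀ ψ : DirichletCharacter ℂ q, ψ.IsPrimitive → ∀ u₁ u₂ : ℕ, x ≤ u₁ → u₁ ≤ u₂ → u₂ ≤ 2 * x →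
  ‖∑ l ∈ Ioc (u₁ : ℤ) u₂ with IsCoprime l (k : ℤ), (lam l : ℂ) * ψ (l : ZMod q)‖ ≤ S

open scoped Classical in
/-- **LS1** (medium; reduction to primitive characters).  `χ` modulo `D` is induced by a primitive `ψ` modulo `r`, `D = r k`; `χ(n) = ψ(n)` if `gcd(n, k) = 1`, and `0` otherwise (for `gcd(n, r) > 1` both sides are `0`), `φ(r k) ≥ φ(r) φ(k)`; the map
`χ ↦ (k, r, ψ)` is injective.  See `chars_le_prim` in Pool/Agent/helper85/MT/AN9ab.lean and Pool/Agent/helper85/MT/AN1.lean for the passage to primitive characters (`primitiveCharacter`, `conductor`, `changeLevel`). -/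
def LS1_stmt : Prop := ∀ (D₁ X : ℕ) (b : ℕ → ℂ),
  ∑ D ∈ Icc 1 D₁, 1 / (Nat.totient D : ℝ) * ∑ χ : DirichletCharacter ℂ D, ‖∑ n ∈ Ioc 0 X, b n * χ (n : ZMod D)‖ ^ 2
    ≤ ∑ k ∈ Icc 1 D₁, 1 / (Nat.totient k : ℝ) * ∑ r ∈ Icc 1 (D₁ / k), 1 / (Nat.totient r : ℝ) *
        ∑ ψ : DirichletCharacter ℂ r with ψ.IsPrimitive, ‖∑ n ∈ Ioc 0 X with Nat.Coprime n k, b n * ψ (n : ZMod r)‖ ^ 2

open scoped Classical in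
/-- **LS2** (short, medium).  `mult_large_sieve` (Pool/Agent/helper85/MT/MLS.lean) on the dyadic blocks `(2^j R₀, 2^(j+1) R₀]`: `1/φ(r) ≤ (2^j R₀)⁻¹ r/φ(r)`, each block is at most
`(2^j R₀)⁻¹ · 5 (X + 4^(j+1) R₀²) ∑ |b|²`, sum over the `j` with `2^j R₀ ≤ Q`. -/
def LS2_stmt : Prop := ∃ C : ℝ, 0 < C ∧ ∀ (Q R₀ X : ℕ) (b : ℕ → ℂ), 1 ≤ R₀ →
  ∑ r ∈ Ioc R₀ Q, 1 / (Nat.totient r : ℝ) * ∑ ψ : DirichletCharacter ℂ r with ψ.IsPrimitive, ‖∑ n ∈ Ioc 0 X, b n * ψ (n : ZMod r)‖ ^ 2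
    ≤ C * (X / R₀ + Q) * ∑ n ∈ Ioc 0 X, ‖b n‖ ^ 2

open scoped Classical in
/-- **LSP** (medium; the large sieve).  From LS1, LS2.  `A(χ) B(χ) = ∑_n b_n χ(n)`, `b_n = ∑_{l₁ l₂ = n, l₁ ∈ I, l₂ ∈ J} lam lam` (all `l` are positive), `n ≤ X = 4x²`, `∑ |b_n|² ≤ M⁴ ∑_{n ≤ 4x²} τ(n)² ≤ C M⁴ x² (1+log x)³`
(divisor moments: Pool/Agent/helper85/BVP/Tau.lean, Pool/Agent/*/DM/).  For each `k ≤ D₁`: conductors `r ≤ R₀`: each term is at most `S⁴` by the hypothesis SWh for `I` and `J` (`∑_{(n,k)=1} b_n ψ(n)` is the product of the two sums with `gcd(l,k) = 1`), total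
`≤ R₀ S⁴` (at most `φ(r)` primitive characters); conductors `R₀ < r ≤ D₁/k`: LS2 for `b_n [gcd(n,k) = 1]`.
`∑_{k ≤ D₁} 1/φ(k) ≤ C (1 + log D₁)` (`k/φ(k) = ∑_{d ∣ k} μ²(d)/φ(d)`). -/
def LSP_stmt : Prop := ∃ C : ℝ, 0 < C ∧ ∀ x K D₁ R₀ : ℕ, 1 ≤ x → 1 ≤ K → 1 ≤ D₁ → 1 ≤ R₀ → D₁ ≤ x ^ 3 → ∀ (M S : ℝ) (lam : ℤ → ℝ),
  (∀ l, |lam l| ≤ M) → SWh x R₀ S lam → ∀ i j : ℕ, i < K → j < K →
  ∑ D ∈ Icc 1 D₁, 1 / (Nat.totient D : ℝ) * ∑ χ : DirichletCharacter ℂ D,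
      ‖∑ l ∈ Ioc (pt x K i : ℤ) (pt x K (i + 1)), (lam l : ℂ) * χ (l : ZMod D)‖ ^ 2 *
      ‖∑ l ∈ Ioc (pt x K j : ℤ) (pt x K (j + 1)), (lam l : ℂ) * χ (l : ZMod D)‖ ^ 2
    ≤ C * (1 + Real.log D₁) * ((D₁ + (x : ℝ) ^ 2 / R₀) * (x ^ 2 * M ^ 4 * (1 + Real.log x) ^ 3) + R₀ * S ^ 4)

open scoped Classical in
/-- **GDP** (short, medium).  From SEC, PLN, LSP, FFC.  `Y = {(e s, r) : (r,s) ∈ ZD N}`, `P` = integer with `4√N ≤ P ≤ 6√N` (`e|s| ≤ 2√(2N)`), `det = e s r' - e s' r = e dl z z'`, `D₀ ≥ 1` the least integer with `K₁ D₀ > N` (for `e = 1`; for `e = 2` the determinants are even larger),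
`sl` = `om e` of the corresponding elements, `F D ω = |Ef … D ω|` (periodic in `ω` modulo `D`: clear from the definition). The divisibilities for `sl` from `OmOK` with `(u,v) = (1,0), (0,1)`.  `D ≤ 2P² ≤ 72 N =: D₁`. -/
def GDP_stmt : Prop := ∃ C : ℝ, 0 < C ∧ ∀ om, OmOK om → ∀ x N K₁ K₂ R₀ : ℕ, 1 ≤ x → 1 ≤ N → 1 ≤ K₁ → 1 ≤ K₂ → 1 ≤ R₀ → 72 * N ≤ x ^ 3 →
  ∀ (M S : ℝ) (lam : ℤ → ℝ), (∀ l, |lam l| ≤ M) → SWh x R₀ S lam → ∀ i j e : ℕ, i < K₂ → j < K₂ → e = 1 ∨ e = 2 →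
  ∑ p ∈ ZD N ×ˢ ZD N with N < K₁ * (dl p.1 p.2).natAbs, |Ef x K₂ lam i j (e * (dl p.1 p.2).natAbs) (om e p.1 p.2)|
    ≤ C * N * K₁ ^ 2 * √((1 + Real.log x) * ((N + (x : ℝ) ^ 2 / R₀) * (x ^ 2 * M ^ 4 * (1 + Real.log x) ^ 3) + R₀ * S ^ 4))

/-- **WFI** (medium).  From LAT, WBD, GDP.  With `L = log x`, `M = 2L`, `Mβ = 3L`, `R² ≤ 2000 x²/N`: choose `K₁ = ⌈L^(B+9)⌉`, `K₂ = ⌈K₁ L^(B+9)⌉`, `R₀ = ⌈L^(E₀)⌉`, `E₀ = 20 B + 200`, `E = 2 E₀`.  The terms: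
`L⁴ x² (N/K₁ + 1)`, `L⁵ x² (N/Z + √N)`, `L⁴ (N² x K₁ x/(K₂ N) + N^(3/2) x)` (use `√N ≥ L^(E/2)`, `√N ≤ x/L^(E/2)`) and `L² K₂² N K₁² √(L (N + x²/R₀) x² L^7 + …)` (`N ≤ x²/L^E`, `S = x/L^E`). All `≤ N x²/L^(B+1)` for large `x`. -/
def WFI_stmt : Prop := ∀ B : ℕ, ∃ E : ℕ, ∃ x₀ : ℕ, ∀ x : ℕ, x₀ ≤ x → ∀ (Z : ℕ) (lam : ℤ → ℝ), Real.log x ^ E ≤ Z →
  LamOK x Z (2 * Real.log x) lam → SWh x (Real.log x ^ E) (x / Real.log x ^ E) lam → ∀ A N R : ℕ, A ≤ x → Real.log x ^ E ≤ N →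
  (N : ℝ) * Real.log x ^ E ≤ x ^ 2 → 1156 * x ^ 2 ≤ R ^ 2 * N → R ^ 2 * N ≤ 2000 * x ^ 2 →
  ∀ β : ℤ × ℤ → ℝ, (∀ z, |β z| ≤ 3 * Real.log x) → WW N R A β lam ≤ N * x ^ 2 / Real.log x ^ B

/-- **T2M** (short).  From TDW, WFI (with `2B + 42`).  Cauchy-Schwarz over `w`; `R² ≤ 2000 x²/N`, `log R ≤ log x + 4`. -/
def T2M_stmt : Prop := ∀ B : ℕ, ∃ E : ℕ, ∃ x₀ : ℕ, ∀ x : ℕ, x₀ ≤ x → ∀ (Z : ℕ) (lam : ℤ → ℝ), Real.log x ^ E ≤ Z →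
  LamOK x Z (2 * Real.log x) lam → SWh x (Real.log x ^ E) (x / Real.log x ^ E) lam → ∀ A N R : ℕ, A ≤ x → Real.log x ^ E ≤ N →
  (N : ℝ) * Real.log x ^ E ≤ x ^ 2 → 1156 * x ^ 2 ≤ R ^ 2 * N → R ^ 2 * N ≤ 2000 * x ^ 2 →
  ∀ (β : ℤ × ℤ → ℝ) (α : ℕ → ℝ), (∀ z, |β z| ≤ 3 * Real.log x) → (∀ k, |α k| ≤ #k.divisors) →
  |∑ w ∈ Bx R with w.1 % 2 = 1, ∑ z ∈ ZD N, β z * α (nn w) * lam (lc z w) * ga A (ac z w)| ≤ x ^ 2 / Real.log x ^ B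

end Pool.Agent.FI
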